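import Pool.Agent.Lib.MP_484915_co.Draw
import Pool.Agent.Lib.MP_484915_co.Gamma

/-!
# A planar graph with bondage number seven
-/

set_option autoImplicit false

namespace Pool.Agent.Results.MP_484915_co.BondageSeven

/-- `D` is a dominating set of `G`: every vertex outside `D` has a neighbour in `D`. -/
def IsDominating {V : Type} (G : SimpleGraph V) (D : Finset V) : Prop :=
  ∀ v : V, v ∉ D → ∃ u ∈ D, G.Adj v u

/-- The domination number `γ(G)`: the minimum size of a dominating set. -/
noncomputable def dominationNumber {V : Type} (G : SimpleGraph V) : ℕ :=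
  sInf {n : ℕ | ∃ D : Finset V, IsDominating G D ∧ D.card = n}

/-- The bondage number `b(G)`: the minimum size of a set `F` of edges of `G` with
`γ(G - F) > γ(G)`. -/
noncomputable def bondageNumber {V : Type} (G : SimpleGraph V) : ℕ :=
  sInf {k : ℕ | ∃ F : Finset (Sym2 V), (F : Set (Sym2 V)) ⊆ G.edgeSet ∧ F.card = k ∧
    dominationNumber (G.deleteEdges (F : Set (Sym2 V))) > dominationNumber G}

/-- A plane drawing of `G` with straight edges: `p` gives distinct points to distinct vertices, the
segment of an edge contains no other vertex, and the segments of two different edges do not meet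
except possibly at endpoints. -/
structure StraightPlaneDrawing {V : Type} (G : SimpleGraph V) (p : V → ℝ × ℝ) : Prop where
  /-- distinct vertices are drawn at distinct points -/
  vertices_distinct : Function.Injective p
  /-- an edge contains no vertex besides its endpoints -/
  vertex_off_edge : ∀ u v w : V, G.Adj u v → w ≠ u → w ≠ v → p w ∉ segment ℝ (p u) (p v)
  /-- different edges do not cross -/
  no_crossing : ∀ u v x y : V, G.Adj u v → G.Adj x y → s(u, v) ≠ s(x, y) →
    Disjoint (openSegment ℝ (p u) (p v)) (openSegment ℝ (p x) (p y))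

open Pool.Agent.Bond

theorem on_of_mem {a b q : ℝ × ℝ} (h : q ∈ openSegment ℝ a b) : On a b q := by
  obtain ⟨s, t, hs, ht, hst, rfl⟩ := h
  refine ⟨t, ht, by linarith, ?_⟩
  have hs' : s = 1 - t := by linarith
  subst hs'
  ext
  · simp only [Prod.fst_add, Prod.smul_fst, smul_eq_mul]
    ring
  · simp only [Prod.snd_add, Prod.smul_snd, smul_eq_mul]
    ring

theorem drawing : StraightPlaneDrawing G fun v => ((px v.1 : ℝ), (py v.1 : ℝ)) where
  vertices_distinct := pos_inj
  vertex_off_edge := by
    intro u v w h hu hv hmem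
    rw [← insert_endpoints_openSegment] at hmem
    rcases hmem with h1 | h1 | h1
    · exact hu (pos_inj h1)
    · exact hv (pos_inj h1)
    · exact vert_avoid h w (on_of_mem h1)
  no_crossing := by
    intro u v x y h1 h2 hne
    rw [Set.disjoint_left]
    intro q hq1 hq2
    exact edge_cross h1 h2 hne (on_of_mem hq1) (on_of_mem hq2)

/-- a spanning tree -/
def parL : List Nat :=
  [0, 0, 1, 0, 0, 1, 3, 0, 0, 1, 2, 3, 4, 5, 6, 7, 0, 1, 3, 0, 0, 1, 2, 3, 16, 17, 18, 19]

theorem par_adj : ∀ v : Fin 28, v ≠ 0 → ∃ u : Fin 28, u.1 < v.1 ∧ adjB u.1 v.1 = true := by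
  have h : ∀ v : Fin 28, v ≠ 0 → (Fin.ofNat 28 (parL.getD v.1 0)).1 < v.1 ∧
      adjB (Fin.ofNat 28 (parL.getD v.1 0)).1 v.1 = true := by
    decide +kernel
  exact fun v hv => ⟨_, h v hv⟩

theorem connected : G.Connected := by
  have h : ∀ k : ℕ, ∀ v : Fin 28, v.1 = k → G.Reachable 0 v := by
    intro k
    induction k using Nat.strong_induction_on with
    | _ k ih =>
      intro v hv
      by_cases h0 : v = 0
      · rw [h0]
      · obtain ⟨u, hu, ha⟩ := par_adj v h0
        exact (ih u.1 (by omega) u rfl).trans (SimpleGraph.Adj.reachable (G := G) ha)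
  rw [SimpleGraph.connected_iff_exists_forall_reachable]
  exact ⟨0, fun v => h v.1 v rfl⟩

theorem card_edges : G.edgeSet.ncard = 76 := by
  have h : G.edgeSet = Set.range (fun i : Fin 76 => ee i.1) := by
    ext e
    induction e using Sym2.ind with
    | _ u v =>
      rw [SimpleGraph.mem_edgeSet]
      constructor
      · intro h
        obtain ⟨i, hi⟩ := edge_index u v h
        exact ⟨i, hi.symm⟩
      · rintro ⟨i, hi⟩
        rw [← SimpleGraph.mem_edgeSet, ← hi]
        change ee i.1 ∈ G.edgeSet
        rw [ee_eq, SimpleGraph.mem_edgeSet]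
        exact (ee_adj i).1
  rw [h, ← Set.image_univ, Set.ncard_image_of_injective _ (fun i j h => ee_inj i j h),
    Set.ncard_univ, Nat.card_eq_fintype_card, Fintype.card_fin]

theorem dom_iff {V : Type} (H : SimpleGraph V) (D : Finset V) :
    IsDominating H D ↔ ∀ v : V, v ∈ D ∨ ∃ u ∈ D, H.Adj u v := by
  constructor
  · intro h v
    by_cases hv : v ∈ D
    · exact Or.inl hv
    · obtain ⟨u, hu, ha⟩ := h v hv
      exact Or.inr ⟨u, hu, ha.symm⟩
  · intro h v hv
    rcases h v with h1 | ⟨u, hu, ha⟩
    · exact absurd h1 hv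
    · exact ⟨u, hu, ha.symm⟩

theorem le_domination {V : Type} [Fintype V] (H : SimpleGraph V) {k : ℕ}
    (h : ∀ D : Finset V, (∀ v : V, v ∈ D ∨ ∃ u ∈ D, H.Adj u v) → k ≤ D.card) :
    k ≤ dominationNumber H := by
  apply le_csInf
  · exact ⟨_, Finset.univ, fun v hv => absurd (Finset.mem_univ v) hv, rfl⟩
  · rintro n ⟨D, hdom, rfl⟩
    exact h D ((dom_iff H D).1 hdom)

theorem domination_six : dominationNumber G = 6 := by
  apply le_antisymm
  · obtain ⟨D, hD, hdom⟩ := surv_all ∅ (by simp) (by simp)
    refine le_trans (Nat.sInf_le ⟨D, (dom_iff G D).2 ?_, rfl⟩) hD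
    intro v
    rcases hdom v with h | ⟨u, hu, hadj⟩
    · exact Or.inl h
    · rw [SimpleGraph.deleteEdges_adj] at hadj
      exact Or.inr ⟨u, hu, hadj.1⟩
  · exact le_domination G gamma_ge

theorem bondage_seven : bondageNumber G = 7 := by
  have hE0 : 7 ∈ {k : ℕ | ∃ F : Finset (Sym2 (Fin 28)), (F : Set (Sym2 (Fin 28))) ⊆ G.edgeSet ∧
      F.card = k ∧
      dominationNumber (G.deleteEdges (F : Set (Sym2 (Fin 28)))) > dominationNumber G} := by
    refine ⟨E0, fun e he => E0_sub e (Finset.mem_coe.mp he), by decide +kernel, ?_⟩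
    rw [domination_six]
    exact le_domination _ gamma_E0
  apply le_antisymm
  · exact Nat.sInf_le hE0
  · apply le_csInf ⟨7, hE0⟩
    rintro k ⟨F, hF, rfl, hlt⟩
    by_contra hcon
    obtain ⟨D, hD, hdom⟩ := surv_all F hF (by omega)
    have h1 : dominationNumber (G.deleteEdges (F : Set (Sym2 (Fin 28)))) ≤ 6 :=
      le_trans (Nat.sInf_le ⟨D, (dom_iff _ D).2 hdom, rfl⟩) hD
    rw [domination_six] at hlt
    omega

/-- **There is a planar graph with bondage number 7.** It is connected, has 28 vertices and 76
edges and domination number 6, and it is drawn in the plane without crossings, with straight edges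
and vertices at integer points. -/
theorem result :
    ∃ (G : SimpleGraph (Fin 28)) (a b : Fin 28 → ℤ),
      StraightPlaneDrawing G (fun v => ((a v : ℝ), (b v : ℝ))) ∧
      G.Connected ∧ G.edgeSet.ncard = 76 ∧ dominationNumber G = 6 ∧ bondageNumber G = 7 :=
  ⟨G, fun v => px v.1, fun v => py v.1, drawing, connected, card_edges, domination_six,
    bondage_seven⟩

end Pool.Agent.Results.MP_484915_co.BondageSeven
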